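import Pool.Agent.Helper98.EY.StmtsC

/-!
# Module BCPH: crossing phase at one slow bond
-/

set_option autoImplicit false

namespace Pool.Agent.Helper98.EX

open Finset

/-! ### order and invariants -/

/-- decreasing functions -/
def BcDec {N : ℕ} (f : Cfg N → ℝ) : Prop := ∀ η ξ : Cfg N, hle 0 η ξ → f ξ ≤ f η

theorem bcph_stp_dec {N : ℕ} {r l : ℕ → ℝ} {S : Finset ℕ} (h : Adm N r l) {f : Cfg N → ℝ}
    (hf : BcDec f) : BcDec (stp r l S f) := by
  intro η ξ hle0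
  refine stp_couple h (hf η ξ hle0) ?_ ?_
  · intro x _ _
    exact hf _ _ (hle_RmS hle0 S x)
  · intro x _ _
    exact hf _ _ (hle_LmS hle0 S x)

theorem bcph_ev_dec {N : ℕ} {r l : ℕ → ℝ} (h : Adm N r l) {f : Cfg N → ℝ} (hf : BcDec f)
    (σ : ℕ → Finset ℕ) (m : ℕ) : BcDec (ev r l σ m f) := by
  induction m generalizing σ with
  | zero => exact hf
  | succ m ih =>
    rw [ev_succ]
    exact bcph_stp_dec h (ih _)

theorem bcph_inv {N : ℕ} {r l : ℕ → ℝ} (h : Adm N r l) {f g : Cfg N → ℝ}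
    (σ : ℕ → Finset ℕ) (m : ℕ) (Inv : Cfg N → Prop)
    (hR : ∀ i x ζ, Inv ζ → Inv (RmS (σ i) x ζ)) (hL : ∀ i x ζ, Inv ζ → Inv (LmS (σ i) x ζ))
    (hfg : ∀ ζ, Inv ζ → f ζ ≤ g ζ) {η : Cfg N} (hη : Inv η) :
    ev r l σ m f η ≤ ev r l σ m g η := by
  refine ev_couple h σ σ m (fun _ a b => a = b ∧ Inv a) ?_ ?_ ?_ ?_ ⟨rfl, hη⟩
  · intro i a b _ hab
    exact hab
  · rintro i a b x _ _ _ ⟨rfl, h2⟩
    exact ⟨rfl, hR i x a h2⟩
  · rintro i a b x _ _ _ ⟨rfl, h2⟩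
    exact ⟨rfl, hL i x a h2⟩
  · rintro a b ⟨rfl, h2⟩
    exact hfg a h2

theorem bcph_ht_RmS {N : ℕ} {S : Finset ℕ} {y : ℕ} (hy : y ∉ S) (x : ℕ) (ζ : Cfg N) :
    ht (RmS S x ζ) y = ht ζ y := by
  unfold RmS
  split_ifs with h
  · refine ht_Rm_ne ζ ?_
    rintro rfl
    exact hy h
  · rfl

theorem bcph_ht_LmS {N : ℕ} {S : Finset ℕ} {y : ℕ} (hy : y ∉ S) (x : ℕ) (ζ : Cfg N) :
    ht (LmS S x ζ) y = ht ζ y := by
  unfold LmS
  split_ifs with h
  · refine ht_Lm_ne ζ ?_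
    rintro rfl
    exact hy h
  · rfl

/-! ### the schedule -/

/-- `J` cycles -/
def bcSch (ms mr : ℕ) (So Sr : Finset ℕ) : ℕ → (ℕ → Finset ℕ)
  | 0 => fun _ => ∅
  | J + 1 => cat (ms + mr) (cat ms (fun _ => So) (fun _ => Sr)) (bcSch ms mr So Sr J)

theorem bcph_sub {ms mr : ℕ} {So Sr T : Finset ℕ} (h1 : So ⊆ T) (h2 : Sr ⊆ T) (J : ℕ) :
    ∀ i, bcSch ms mr So Sr J i ⊆ T := by
  induction J with
  | zero => intro i; exact Finset.empty_subset _
  | succ J ih =>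
    intro i
    unfold bcSch cat
    split_ifs
    · exact h1
    · exact h2
    · exact ih _

theorem bcph_ev {N : ℕ} (r l : ℕ → ℝ) (ms mr : ℕ) (So Sr : Finset ℕ) (J : ℕ) (f : Cfg N → ℝ) :
    ev r l (bcSch ms mr So Sr (J + 1)) ((J + 1) * (ms + mr)) f =
      ev r l (fun _ => So) ms (ev r l (fun _ => Sr) mr
        (ev r l (bcSch ms mr So Sr J) (J * (ms + mr)) f)) := by
  have e : (J + 1) * (ms + mr) = (ms + mr) + J * (ms + mr) := by ring
  rw [e]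
  show ev r l (cat (ms + mr) (cat ms (fun _ => So) (fun _ => Sr)) (bcSch ms mr So Sr J))
    ((ms + mr) + J * (ms + mr)) f = _
  rw [ev_cat, ev_cat]

/-! ### iteration -/

theorem bcph_iter {N : ℕ} {r l : ℕ → ℝ} (h : Adm N r l) {ms mr b c0 g : ℕ} {So Sr : Finset ℕ}
    (C C' : ℕ → Set (Cfg N)) {p err lam : ℝ} (hp0 : 0 ≤ p) (hlam : 0 ≤ lam) (herr : 0 ≤ err)
    (hCC : ∀ j, C j ⊆ C' j) (hCb : ∀ j ζ, ζ ∈ C j → ht ζ b = c0 + j)
    (hup : ∀ j ζ, ζ ∈ C j → j < g → Rm b ζ ∈ C' (j + 1) ∧ ht (Rm b ζ) b = ht ζ b + 1)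
    (hopen : ∀ j ζ, ζ ∈ C j → p ≤ pr r l (fun _ => So) ms {ξ | ht ζ b + 1 ≤ ht ξ b} ζ ∧
      pr r l (fun _ => So) ms {ξ | ¬ hle 0 ζ ξ} ζ = 0)
    (hrel : ∀ j ζ, ζ ∈ C' j → j ≤ g → ∀ (f : Cfg N → ℝ) (M : ℝ), 0 ≤ M → (∀ ξ, f ξ ≤ 1) →
      (∀ ξ ∈ C j, f ξ ≤ M) → ev r l (fun _ => Sr) mr f ζ ≤ M + err) (J : ℕ) :
    (∀ ζ ∈ C g, ev r l (bcSch ms mr So Sr J) (J * (ms + mr))
      (ind {ξ | ht ξ b < c0 + g}) ζ ≤ J * err) ∧
    ∀ j, j ≤ g → ∀ ζ ∈ C j, ev r l (bcSch ms mr So Sr J) (J * (ms + mr))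
      (ind {ξ | ht ξ b < c0 + g}) ζ ≤
        Real.exp (lam * ((g : ℝ) - j)) * (1 - p * (1 - Real.exp (-lam))) ^ J + J * err := by
  set B : Set (Cfg N) := {ξ | ht ξ b < c0 + g} with hB
  have hBd : BcDec (ind B) := by
    intro η ξ hle0
    by_cases h1 : ξ ∈ B
    · have h2 : η ∈ B := by
        have := hle0 b
        rw [hB, Set.mem_ofPred_eq] at h1 ⊢
        omega
      rw [ind_of_mem h1, ind_of_mem h2]
    · rw [ind_of_not_mem h1]
      exact ind_nonneg B η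
  have he1 : Real.exp (-lam) ≤ 1 := Real.exp_le_one_iff.2 (by linarith)
  have he0 : 0 < Real.exp (-lam) := Real.exp_pos _
  induction J with
  | zero =>
    refine ⟨?_, ?_⟩
    · intro ζ hζ
      have h1 := hCb g ζ hζ
      have h2 : ζ ∉ B := by
        rw [hB, Set.mem_ofPred_eq]
        omega
      show ev r l _ (0 * (ms + mr)) (ind B) ζ ≤ _
      rw [Nat.zero_mul]
      show ind B ζ ≤ _
      rw [ind_of_not_mem h2]
      simp
    · intro j hj ζ hζ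
      show ev r l _ (0 * (ms + mr)) (ind B) ζ ≤ _
      rw [Nat.zero_mul]
      show ind B ζ ≤ _
      have h1 : 1 ≤ Real.exp (lam * ((g : ℝ) - j)) := by
        refine Real.one_le_exp ?_
        have : (j : ℝ) ≤ g := by exact_mod_cast hj
        exact mul_nonneg hlam (by linarith)
      have h2 := ind_le_one B ζ
      simp only [pow_zero, mul_one, Nat.cast_zero, zero_mul, add_zero]
      linarith
  | succ J ih =>
    obtain ⟨ih1, ih2⟩ := ih
    set F : Cfg N → ℝ := ev r l (bcSch ms mr So Sr J) (J * (ms + mr)) (ind B) with hF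
    set H : Cfg N → ℝ := ev r l (fun _ => Sr) mr F with hH
    have hFd : BcDec F := bcph_ev_dec h hBd _ _
    have hHd : BcDec H := bcph_ev_dec h hFd _ _
    have hF1 : ∀ ξ, F ξ ≤ 1 := pr_le_one h _ _ B
    have hF0 : ∀ ξ, 0 ≤ F ξ := pr_nonneg h _ _ B
    have hH1 : ∀ ξ, H ξ ≤ 1 := by
      intro ξ
      have h1 := ev_mono h (g := fun _ => (1 : ℝ)) hF1 (fun _ => Sr) mr ξ
      rwa [ev_const] at h1
    have hH0 : ∀ ξ, 0 ≤ H ξ := ev_nonneg h hF0 _ _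
    -- one open phase
    have hop : ∀ j ζ, ζ ∈ C j → ev r l (fun _ => So) ms H ζ ≤ H ζ := by
      intro j ζ hζ
      obtain ⟨-, h2⟩ := hopen j ζ hζ
      have h3 : ev r l (fun _ => So) ms H ζ ≤
          ev r l (fun _ => So) ms (fun ξ => H ζ + ind {ξ | ¬ hle 0 ζ ξ} ξ) ζ := by
        refine ev_mono h ?_ _ _ _
        intro ξ
        by_cases h4 : hle 0 ζ ξ
        · rw [ind_of_not_mem (show ξ ∉ {ξ | ¬ hle 0 ζ ξ} from fun h5 => h5 h4)]
          have := hHd ζ ξ h4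
          linarith
        · rw [ind_of_mem (show ξ ∈ {ξ | ¬ hle 0 ζ ξ} from h4)]
          linarith [hH1 ξ, hH0 ζ]
      rw [ev_add_fun _ _ (fun _ => H ζ) (ind {ξ | ¬ hle 0 ζ ξ}), ev_const] at h3
      unfold pr at h2
      rw [h2, add_zero] at h3
      exact h3
    have hop2 : ∀ j ζ, ζ ∈ C j → j < g → p ≤ 1 ∧ ev r l (fun _ => So) ms H ζ ≤
        (1 - p) * H ζ + p * H (Rm b ζ) := by
      intro j ζ hζ hj
      obtain ⟨h1, h2⟩ := hopen j ζ hζ
      obtain ⟨-, hub⟩ := hup j ζ hζ hj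
      set U : Set (Cfg N) := {ξ | ht ζ b + 1 ≤ ht ξ b} with hU
      set V : Set (Cfg N) := {ξ | ¬ hle 0 ζ ξ} with hV
      have hdm : H (Rm b ζ) ≤ H ζ := hHd _ _ (fun y => by simpa using ht_Rm_ge ζ b y)
      have h3 : ev r l (fun _ => So) ms H ζ ≤
          ev r l (fun _ => So) ms (fun ξ => (H ζ + (-(H ζ - H (Rm b ζ))) * ind U ξ) + ind V ξ) ζ := by
        refine ev_mono h ?_ _ _ _
        intro ξ
        by_cases h4 : hle 0 ζ ξ
        · rw [ind_of_not_mem (show ξ ∉ V from fun h5 => h5 h4)]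
          by_cases h6 : ξ ∈ U
          · rw [ind_of_mem h6]
            have h7 : hle 0 (Rm b ζ) ξ := by
              intro y
              by_cases hy : y = b
              · subst hy
                rw [hub]
                rw [hU, Set.mem_ofPred_eq] at h6
                omega
              · rw [ht_Rm_ne ζ hy]
                exact h4 y
            have := hHd _ _ h7
            linarith
          · rw [ind_of_not_mem h6]
            have := hHd _ _ h4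
            linarith
        · rw [ind_of_mem (show ξ ∈ V from h4)]
          have h8 := ind_le_one U ξ
          have h9 := ind_nonneg U ξ
          have h10 : (H ζ - H (Rm b ζ)) * ind U ξ ≤ (H ζ - H (Rm b ζ)) * 1 :=
            mul_le_mul_of_nonneg_left h8 (by linarith)
          linarith [hH1 ξ, hH0 (Rm b ζ)]
      rw [ev_add_fun _ _ (fun ξ => H ζ + (-(H ζ - H (Rm b ζ))) * ind U ξ) (ind V),
        ev_add_fun _ _ (fun _ => H ζ) (fun ξ => (-(H ζ - H (Rm b ζ))) * ind U ξ), ev_const,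
        ev_smul] at h3
      unfold pr at h2
      rw [h2, add_zero] at h3
      have h11 : p ≤ ev r l (fun _ => So) ms (ind U) ζ := h1
      refine ⟨h1.trans (pr_le_one h _ _ _ _), ?_⟩
      have h12 : (H ζ - H (Rm b ζ)) * p ≤ (H ζ - H (Rm b ζ)) * ev r l (fun _ => So) ms (ind U) ζ :=
        mul_le_mul_of_nonneg_left h11 (by linarith)
      linarith
    have hbase : ∀ (j : ℕ) (ζ : Cfg N), ζ ∈ C' j → j ≤ g →
        H ζ ≤ Real.exp (lam * ((g : ℝ) - j)) * (1 - p * (1 - Real.exp (-lam))) ^ J +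
          J * err + err ∨ ¬ (p ≤ 1) := by
      intro j ζ hζ hj
      by_cases hp1 : p ≤ 1
      · left
        have hq0 : 0 ≤ 1 - p * (1 - Real.exp (-lam)) := by
          have := mul_le_one₀ hp1 (by linarith) (by linarith : 1 - Real.exp (-lam) ≤ 1)
          linarith
        refine hrel j ζ hζ hj F _ (by positivity) hF1 ?_
        intro ξ hξ
        exact ih2 j hj ξ hξ
      · right
        exact hp1
    refine ⟨?_, ?_⟩
    · intro ζ hζ
      rw [bcph_ev]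
      refine (hop g ζ hζ).trans ?_
      have h1 := hrel g ζ (hCC g hζ) le_rfl F (J * err) (by positivity) hF1 ih1
      refine h1.trans (le_of_eq ?_)
      push_cast
      ring
    · intro j hj ζ hζ
      rw [bcph_ev]
      rcases Nat.lt_or_ge j g with hjg | hjg
      · obtain ⟨hp1, h1⟩ := hop2 j ζ hζ hjg
        refine h1.trans ?_
        have h2 := (hbase j ζ (hCC j hζ) hj).resolve_right (fun h => h hp1)
        have h3 := (hbase (j + 1) (Rm b ζ) (hup j ζ hζ hjg).1 hjg).resolve_right (fun h => h hp1)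
        have h4 : Real.exp (lam * ((g : ℝ) - (j + 1 : ℕ))) =
            Real.exp (lam * ((g : ℝ) - j)) * Real.exp (-lam) := by
          rw [← Real.exp_add]
          congr 1
          push_cast
          ring
        rw [h4] at h3
        have h5 := mul_le_mul_of_nonneg_left h2 (by linarith : 0 ≤ 1 - p)
        have h6 := mul_le_mul_of_nonneg_left h3 hp0
        refine (add_le_add h5 h6).trans (le_of_eq ?_)
        rw [pow_succ]
        push_cast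
        ring
      · have hjg' : j = g := le_antisymm hj hjg
        subst hjg'
        refine (hop j ζ hζ).trans ?_
        have h1 := hrel j ζ (hCC j hζ) le_rfl F (J * err) (by positivity) hF1 ih1
        refine h1.trans ?_
        have hp1 : p ≤ 1 := (hopen j ζ hζ).1.trans (pr_le_one h _ _ _ _)
        have hq0 : 0 ≤ 1 - p * (1 - Real.exp (-lam)) := by
          have := mul_le_one₀ hp1 (by linarith) (by linarith : 1 - Real.exp (-lam) ≤ 1)
          linarith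
        have h2 : 0 ≤ Real.exp (lam * ((j : ℝ) - j)) *
            (1 - p * (1 - Real.exp (-lam))) ^ (J + 1) := by positivity
        push_cast
        linarith

/-! ### numbers -/

theorem bcph_num (δ : ℝ) : ∃ N1 : ℕ, ∀ N : ℕ, N1 ≤ N →
    20000 ≤ Real.log N ∧ Real.log N ^ 5067 ≤ N ∧ 80 / (3 * δ ^ 2) ≤ Real.log N := by
  have h1 : ∀ᶠ x : ℝ in Filter.atTop, Real.log x ^ 5067 ≤ x := by
    have h2 := (Real.isLittleO_pow_log_id_atTop (n := 5067)).bound (c := 1) one_pos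
    filter_upwards [h2, Filter.eventually_ge_atTop (0 : ℝ)] with x hx hx0
    rw [one_mul, id, Real.norm_eq_abs, Real.norm_eq_abs, abs_of_nonneg hx0] at hx
    exact (le_abs_self _).trans hx
  have h3 : ∀ᶠ x : ℝ in Filter.atTop, 20000 ≤ Real.log x :=
    Real.tendsto_log_atTop.eventually_ge_atTop _
  have h4 : ∀ᶠ x : ℝ in Filter.atTop, 80 / (3 * δ ^ 2) ≤ Real.log x :=
    Real.tendsto_log_atTop.eventually_ge_atTop _
  have h5 := tendsto_natCast_atTop_atTop (R := ℝ) |>.eventually (h1.and (h3.and h4))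
  obtain ⟨N1, hN1⟩ := Filter.eventually_atTop.1 h5
  exact ⟨N1, fun N hN => ⟨(hN1 N hN).2.1, (hN1 N hN).1, (hN1 N hN).2.2⟩⟩

theorem bcph_n {N : ℕ} (hK : 20000 ≤ Real.log N) :
    0 < (N : ℝ) ∧ (N : ℝ) = Real.exp (Real.log N) := by
  have h0 : (N : ℝ) ≠ 0 := by
    intro h
    rw [h, Real.log_zero] at hK
    linarith
  have h1 : 0 < (N : ℝ) := lt_of_le_of_ne (Nat.cast_nonneg N) (Ne.symm h0)
  exact ⟨h1, (Real.exp_log h1).symm⟩

theorem bcph_rpow {N : ℕ} (k : ℕ) :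
    (N : ℝ) ^ (-(k : ℝ)) = ((N : ℝ) ^ k)⁻¹ := by
  rw [Real.rpow_neg (Nat.cast_nonneg N), Real.rpow_natCast]

theorem bcph_exp {N : ℕ} (hK : 20000 ≤ Real.log N) {x : ℝ} (hx : x ≤ -(10 * Real.log N)) :
    Real.exp x ≤ ((N : ℝ) ^ 10)⁻¹ := by
  obtain ⟨h1, h2⟩ := bcph_n hK
  have h3 : ((N : ℝ) ^ 10)⁻¹ = Real.exp (-(10 * Real.log N)) := by
    rw [Real.exp_neg]
    congr 1
    conv_lhs => rw [h2]
    rw [← Real.exp_nat_mul]
    norm_num
  rw [h3]
  exact Real.exp_le_exp.2 hx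

theorem bcph_QQ {N : ℕ} (hK : 20000 ≤ Real.log N) :
    Real.log N ^ 241 ≤ QQ N ∧ (QQ N : ℝ) ≤ Real.log N ^ 241 + 1 := by
  refine ⟨Nat.le_ceil _, ?_⟩
  exact (Nat.ceil_lt_add_one (by positivity)).le

/-- one closed window -/
theorem bcph_win (hQ : ST_QG) {N w : ℕ} {r l : ℕ → ℝ} {C1 : ℝ} (hK : 20000 ≤ Real.log N)
    (hN : Real.log N ^ 5067 ≤ N) (hG : GE N r l w C1) {A B x0 : ℕ} {S : Finset ℕ} {ζ : Cfg N}
    (hB : B = A + QQ N) (hBN : B < N) (hx1 : A ≤ x0) (hx2 : x0 ≤ B) (hAS : A ∉ S)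
    (hBS : B ∉ S) (hS : ∀ x, A < x → x < B → x ∈ S)
    (hr : ∀ b, A < b → b < B → 1 ≤ Real.log N ^ 960 * r b)
    (hRR : ∀ z x, A ≤ z → z ≤ x → x < B → RR r l z x ≤ Real.log N ^ 960)
    (hc : cnt ζ A B = B - x0) :
    pr r l (fun _ => S) (mrN N) (sorted A (x0 - w) (x0 + w) B)ᶜ ζ ≤ 2 * ((N : ℝ) ^ 10)⁻¹ := by
  obtain ⟨hn1, hn2⟩ := bcph_n hK
  obtain ⟨hq1, hq2⟩ := bcph_QQ hK
  set Λ := Real.log N with hΛ
  have hΛ0 : 0 < Λ := by linarith
  have hΛ1 : 1 ≤ Λ := by linarith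
  have hpos : Pos N l := by
    intro x hx1 hx2
    exact lt_of_lt_of_le (Real.rpow_pos_of_pos hn1 _) (hG.low x hx1 hx2)
  have hD1 : (1 : ℝ) ≤ Λ ^ 960 := one_le_pow₀ hΛ1
  have hD0 : (0 : ℝ) < Λ ^ 960 := by positivity
  have hlm : (N : ℝ) ^ (-100 : ℝ) = ((N : ℝ) ^ 100)⁻¹ := by
    have h3 : (-100 : ℝ) = -((100 : ℕ) : ℝ) := by norm_num
    rw [h3, bcph_rpow]
  have hN1 : (1 : ℝ) ≤ N := (one_le_pow₀ hΛ1).trans hN
  have hQ0 : 0 < QQ N := by
    have : (0 : ℝ) < QQ N := lt_of_lt_of_le (by positivity) hq1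
    exact_mod_cast this
  have hBA : (B : ℝ) - A = QQ N := by
    rw [hB]
    push_cast
    ring
  have hQr0 : (0 : ℝ) < QQ N := by exact_mod_cast hQ0
  have hQ2 : (QQ N : ℝ) ≤ 2 * Λ ^ 241 := by
    have : (1 : ℝ) ≤ Λ ^ 241 := one_le_pow₀ hΛ1
    linarith
  have hmain := hQ N r l S A (x0 - w) x0 (x0 + w) B (mrN N) (Λ ^ 960)
    (Λ ^ 960)⁻¹ ((N : ℝ) ^ (-100 : ℝ)) ζ hG.adm hpos hx1 (by omega) (by omega) hx2
    (by omega) (by omega) hAS hBS hS (by positivity) (by rw [hlm]; positivity) ?_ ?_ hD1 hRR hc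
  · rw [hBA] at hmain
    refine hmain.trans ?_
    have e1 : Real.exp ((QQ N : ℝ) ^ 2 * Real.log (1 / (N : ℝ) ^ (-100 : ℝ)) +
        QQ N * Real.log (2 * Λ ^ 960) -
        (mrN N : ℝ) * (Λ ^ 960)⁻¹ / (4 * N * ((QQ N : ℝ) ^ 5 * (Λ ^ 960) ^ 2))) ≤
          ((N : ℝ) ^ 10)⁻¹ := by
      refine bcph_exp hK ?_
      rw [← hΛ]
      have h2 : Real.log (1 / (N : ℝ) ^ (-100 : ℝ)) = 100 * Λ := by
        rw [hlm, one_div, inv_inv, Real.log_pow]
        norm_num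
        exact hΛ.symm
      rw [h2]
      have h3 : Real.log (2 * Λ ^ 960) ≤ 961 * Λ := by
        rw [Real.log_mul (by norm_num) (by positivity), Real.log_pow]
        have h4 := Real.log_le_sub_one_of_pos (by norm_num : (0 : ℝ) < 2)
        have h5 := Real.log_le_sub_one_of_pos hΛ0
        push_cast
        linarith
      have h4 : (QQ N : ℝ) ^ 2 * (100 * Λ) ≤ 400 * Λ ^ 483 := by
        have h5 : (QQ N : ℝ) ^ 2 ≤ (2 * Λ ^ 241) ^ 2 := pow_le_pow_left₀ hQr0.le hQ2 2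
        calc (QQ N : ℝ) ^ 2 * (100 * Λ) ≤ (2 * Λ ^ 241) ^ 2 * (100 * Λ) :=
              mul_le_mul_of_nonneg_right h5 (by positivity)
          _ = 400 * Λ ^ 483 := by ring
      have h6 : (QQ N : ℝ) * Real.log (2 * Λ ^ 960) ≤ 1922 * Λ ^ 242 := by
        calc (QQ N : ℝ) * Real.log (2 * Λ ^ 960) ≤ QQ N * (961 * Λ) :=
              mul_le_mul_of_nonneg_left h3 hQr0.le
          _ ≤ (2 * Λ ^ 241) * (961 * Λ) := mul_le_mul_of_nonneg_right hQ2 (by positivity)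
          _ = 1922 * Λ ^ 242 := by ring
      have h7 : Λ ^ 515 / 64 ≤
          (mrN N : ℝ) * (Λ ^ 960)⁻¹ / (4 * N * ((QQ N : ℝ) ^ 5 * (Λ ^ 960) ^ 2)) := by
        have h8 : (QQ N : ℝ) ^ 5 ≤ (2 * Λ ^ 241) ^ 5 := pow_le_pow_left₀ hQr0.le hQ2 5
        have h9 : 2 * (N : ℝ) * Λ ^ 4600 ≤ mrN N := Nat.le_ceil _
        rw [div_le_div_iff₀ (by norm_num) (by positivity)]
        have h11 : Λ ^ 515 * (4 * N * ((QQ N : ℝ) ^ 5 * (Λ ^ 960) ^ 2)) ≤
            Λ ^ 515 * (4 * N * ((2 * Λ ^ 241) ^ 5 * (Λ ^ 960) ^ 2)) := by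
          refine mul_le_mul_of_nonneg_left ?_ (by positivity)
          refine mul_le_mul_of_nonneg_left ?_ (by positivity)
          exact mul_le_mul_of_nonneg_right h8 (by positivity)
        refine h11.trans ?_
        have h12 : Λ ^ 515 * (4 * N * ((2 * Λ ^ 241) ^ 5 * (Λ ^ 960) ^ 2)) =
            2 * (N : ℝ) * Λ ^ 4600 * (Λ ^ 960)⁻¹ * 64 := by
          have h13 : Λ ^ 4600 * (Λ ^ 960)⁻¹ = Λ ^ 3640 := by
            rw [← div_eq_mul_inv, div_eq_iff hD0.ne', ← pow_add]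
          calc Λ ^ 515 * (4 * N * ((2 * Λ ^ 241) ^ 5 * (Λ ^ 960) ^ 2))
              = 128 * N * (Λ ^ 515 * ((Λ ^ 241) ^ 5 * (Λ ^ 960) ^ 2)) := by ring
            _ = 128 * N * Λ ^ 3640 := by
                rw [← pow_mul, ← pow_mul, ← pow_add, ← pow_add]
            _ = 128 * N * (Λ ^ 4600 * (Λ ^ 960)⁻¹) := by rw [h13]
            _ = 2 * (N : ℝ) * Λ ^ 4600 * (Λ ^ 960)⁻¹ * 64 := by ring
        rw [h12]
        refine mul_le_mul_of_nonneg_right ?_ (by norm_num)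
        exact mul_le_mul_of_nonneg_right h9 (by positivity)
      have h13 : 400 * Λ ^ 483 + 1922 * Λ ^ 242 + 10 * Λ ≤ Λ ^ 515 / 64 := by
        have g1 : Λ ≤ Λ ^ 483 := by
          calc Λ = Λ ^ 1 := (pow_one Λ).symm
            _ ≤ Λ ^ 483 := pow_le_pow_right₀ hΛ1 (by norm_num)
        have g2 : Λ ^ 242 ≤ Λ ^ 483 := pow_le_pow_right₀ hΛ1 (by norm_num)
        have g3 : Λ ^ 515 = Λ ^ 483 * Λ ^ 32 := by rw [← pow_add]
        have g4 : (20000 : ℝ) ^ 2 ≤ Λ ^ 2 := pow_le_pow_left₀ (by norm_num) hK 2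
        have g4' : Λ ^ 2 ≤ Λ ^ 32 := pow_le_pow_right₀ hΛ1 (by norm_num)
        have g6 : 0 < Λ ^ 483 := by positivity
        have g5 : Λ ^ 483 * (20000 : ℝ) ^ 2 ≤ Λ ^ 483 * Λ ^ 32 :=
          mul_le_mul_of_nonneg_left (g4.trans g4') g6.le
        rw [g3]
        linarith
      linarith
    have hfar : ∀ z x, z + w ≤ x → x < B → RR r l z x ≤ ((N : ℝ) ^ 11)⁻¹ := by
      intro z x hzx hx
      have h3 := hG.far z x hzx (by omega)
      have h4 : (-11 : ℝ) = -((11 : ℕ) : ℝ) := by norm_num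
      rw [h4, bcph_rpow] at h3
      exact h3
    have hsum : ∀ (s t : Finset ℕ), s.card ≤ QQ N → t.card ≤ QQ N →
        (∀ z ∈ s, ∀ x ∈ t, RR r l z x ≤ ((N : ℝ) ^ 11)⁻¹) →
        ∑ z ∈ s, ∑ x ∈ t, RR r l z x ≤ (QQ N : ℝ) * ((QQ N : ℝ) * ((N : ℝ) ^ 11)⁻¹) := by
      intro s t hs ht hst
      have h1 : ∀ z ∈ s, ∑ x ∈ t, RR r l z x ≤ (QQ N : ℝ) * ((N : ℝ) ^ 11)⁻¹ := by
        intro z hz
        refine (Finset.sum_le_sum fun x hx => hst z hz x hx).trans ?_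
        rw [Finset.sum_const, nsmul_eq_mul]
        refine mul_le_mul_of_nonneg_right ?_ (by positivity)
        exact_mod_cast ht
      refine (Finset.sum_le_sum h1).trans ?_
      rw [Finset.sum_const, nsmul_eq_mul]
      refine mul_le_mul_of_nonneg_right ?_ (by positivity)
      exact_mod_cast hs
    have e2 := hsum (Finset.Ico A (x0 - w)) (Finset.Ico x0 B)
      (by rw [Nat.card_Ico]; omega) (by rw [Nat.card_Ico]; omega)
      (by
        intro z hz x hx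
        rw [Finset.mem_Ico] at hz hx
        exact hfar z x (by omega) hx.2)
    have e3 := hsum (Finset.Ico A x0) (Finset.Ico (x0 + w) B)
      (by rw [Nat.card_Ico]; omega) (by rw [Nat.card_Ico]; omega)
      (by
        intro z hz x hx
        rw [Finset.mem_Ico] at hz hx
        exact hfar z x (by omega) hx.2)
    have e4 : 2 * ((QQ N : ℝ) * ((QQ N : ℝ) * ((N : ℝ) ^ 11)⁻¹)) ≤ ((N : ℝ) ^ 10)⁻¹ := by
      have h1 : (N : ℝ) * ((N : ℝ) ^ 11)⁻¹ = ((N : ℝ) ^ 10)⁻¹ := by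
        have : (N : ℝ) ^ 11 = N * (N : ℝ) ^ 10 := by ring
        rw [this, mul_inv, ← mul_assoc, mul_inv_cancel₀ hn1.ne', one_mul]
      rw [← h1]
      have h2 : 2 * (QQ N : ℝ) ^ 2 ≤ N := by
        have h5 : (QQ N : ℝ) ^ 2 ≤ (2 * Λ ^ 241) ^ 2 := pow_le_pow_left₀ hQr0.le hQ2 2
        have h6 : (2 * Λ ^ 241) ^ 2 = 4 * Λ ^ 482 := by ring
        have h7 : Λ ^ 483 ≤ Λ ^ 5067 := pow_le_pow_right₀ hΛ1 (by norm_num)
        have h8 : Λ ^ 483 = Λ ^ 482 * Λ := pow_succ _ _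
        have h9 : 0 < Λ ^ 482 := by positivity
        have h10 : Λ ^ 482 * 8 ≤ Λ ^ 482 * Λ := mul_le_mul_of_nonneg_left (by linarith) h9.le
        linarith
      calc 2 * ((QQ N : ℝ) * ((QQ N : ℝ) * ((N : ℝ) ^ 11)⁻¹))
          = 2 * (QQ N : ℝ) ^ 2 * ((N : ℝ) ^ 11)⁻¹ := by ring
        _ ≤ N * ((N : ℝ) ^ 11)⁻¹ := mul_le_mul_of_nonneg_right h2 (by positivity)
    linarith
  · rw [hlm]
    exact inv_le_one_of_one_le₀ (one_le_pow₀ hN1)
  · intro b hb1 hb2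
    refine ⟨?_, hG.low b (by omega) (by omega)⟩
    have h2 := hr b hb1 hb2
    rw [inv_le_iff_one_le_mul₀ hD0]
    linarith

/-! ### the classes -/

/-- heights of the class -/
def bcC' (N Q b c0 j : ℕ) : Set (Cfg N) :=
  {ζ | ht ζ (b + Q) = c0 ∧ ht ζ b = c0 + j ∧ ht ζ (b - Q) = c0 + Q}

/-- the class -/
def bcC (N Q q b c0 j : ℕ) : Set (Cfg N) :=
  {ζ | ζ ∈ bcC' N Q b c0 j ∧ (∀ x, b ≤ x + q → x < b → occ ζ x = true) ∧
    (∀ x, b ≤ x → x < b + q → occ ζ x = false)}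

theorem bcph_up {N Q q b c0 j : ℕ} (hq : 1 ≤ q) (hb1 : 1 ≤ b) (hbN : b < N) (hQ : 1 ≤ Q)
    (hQb : Q ≤ b) {ζ : Cfg N}
    (hζ : ζ ∈ bcC N Q q b c0 j) :
    Rm b ζ ∈ bcC' N Q b c0 (j + 1) ∧ ht (Rm b ζ) b = ht ζ b + 1 := by
  obtain ⟨⟨h1, h2, h3⟩, h4, h5⟩ := hζ
  have h6 : ht (Rm b ζ) b = ht ζ b + 1 := by
    rw [ht_Rm ζ hb1 hbN]
    have e1 := (occ_iff_ht ζ (by omega : b - 1 < N)).1 (h4 (b - 1) (by omega) (by omega))
    have e2 := (not_occ_iff_ht ζ hbN).1 (h5 b le_rfl (by omega))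
    have e3 : b - 1 + 1 = b := by omega
    rw [e3] at e1
    omega
  refine ⟨⟨?_, ?_, ?_⟩, h6⟩
  · rw [ht_Rm_ne ζ (by omega)]
    exact h1
  · rw [h6, h2]
    ring
  · rw [ht_Rm_ne ζ (by omega)]
    exact h3

theorem bcph_rel (hQG : ST_QG) {N w b : ℕ} {r l : ℕ → ℝ} {C1 : ℝ} (hK : 20000 ≤ Real.log N)
    (hN : Real.log N ^ 5067 ≤ N) (hG : GE N r l w C1) (hS : Sur N r l b)
    (hb1 : QQ N + 1 ≤ b) (hb2 : b + QQ N + 1 ≤ N) {g c0 : ℕ}
    (hg : g + 2 * w + 2 ≤ QQ N) (j : ℕ) (ζ : Cfg N) (hζ : ζ ∈ bcC' N (QQ N) b c0 j)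
    (hj : j ≤ g) (f : Cfg N → ℝ) (M : ℝ) (hM : 0 ≤ M) (hf : ∀ ξ, f ξ ≤ 1)
    (hfM : ∀ ξ ∈ bcC N (QQ N) (w + 2) b c0 j, f ξ ≤ M) :
    ev r l (fun _ => (Finset.Ioo (b - QQ N) (b + QQ N)).erase b) (mrN N) f ζ ≤
      M + 4 * ((N : ℝ) ^ 10)⁻¹ := by
  obtain ⟨h1, h2, h3⟩ := hζ
  set S : Finset ℕ := (Finset.Ioo (b - QQ N) (b + QQ N)).erase b with hSd
  obtain ⟨hn1, hn2⟩ := bcph_n hK
  obtain ⟨hq1, hq2⟩ := bcph_QQ hK
  have hw1 := hG.w1
  have hΛ1 : 1 ≤ Real.log N := by linarith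
  have hmS : ∀ x, x ∈ S ↔ x ≠ b ∧ b - QQ N < x ∧ x < b + QQ N := by
    intro x
    rw [hSd, Finset.mem_erase, Finset.mem_Ioo]
  have hQ1 : 1 ≤ QQ N := by omega
  have hb3 : b ∉ S := by rw [hmS]; omega
  have hb4 : b - QQ N ∉ S := by rw [hmS]; omega
  have hb5 : b + QQ N ∉ S := by rw [hmS]; omega
  have h31 : Real.log N ^ 241 ≤ Real.log N ^ 241 := le_rfl
  have hQ3 : (QQ N : ℝ) ≤ 3 * Real.log N ^ 241 := by
    have : (1 : ℝ) ≤ Real.log N ^ 241 := one_le_pow₀ hΛ1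
    linarith
  have hvpe : ∀ z x, vp r l z x * r (x + 1) = RR r l z x := by
    intro z x
    unfold vp
    exact div_mul_cancel₀ _ (hG.pos (x + 1)).1.ne'
  have hvhe : ∀ z x, vh r l z x * r z = RR r l z x := by
    intro z x
    unfold vh
    exact div_mul_cancel₀ _ (hG.pos z).1.ne'
  have hD0 : (0 : ℝ) < Real.log N ^ 960 := by positivity
  -- left window
  have hW1 := bcph_win hQG (S := S) (ζ := ζ) hK hN hG (A := b - QQ N) (B := b)
    (x0 := b - QQ N + j) (by omega) (by omega) (by omega) (by omega) hb4 hb3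
    (fun x hx1 hx2 => by rw [hmS]; omega)
    (by
      intro c hc1 hc2
      have e1 := hS.lh c c (by
        have : (b : ℝ) ≤ c + QQ N := by exact_mod_cast (by omega : b ≤ c + QQ N)
        linarith) (by omega) le_rfl hc2
      have e2 := hvhe c c
      have e3 : RR r l c c = 1 := by simp [RR]
      have e4 := mul_le_mul_of_nonneg_right e1 (hG.pos c).1.le
      rw [e2, e3] at e4
      exact e4)
    (by
      intro z x hz hzx hx
      have e1 := hS.lh z x (by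
        have : (b : ℝ) ≤ z + QQ N := by exact_mod_cast (by omega : b ≤ z + QQ N)
        linarith) (by omega) hzx hx
      have e4 := mul_le_mul_of_nonneg_right e1 (hG.pos z).1.le
      rw [hvhe] at e4
      have e5 := (hG.adm z (by omega) (by omega)).2.1
      refine e4.trans ?_
      calc Real.log N ^ 960 * r z ≤ Real.log N ^ 960 * 1 :=
            mul_le_mul_of_nonneg_left e5 hD0.le
        _ = Real.log N ^ 960 := mul_one _)
    (by
      have := ht_cnt ζ (A := b - QQ N) (B := b) (by omega) (by omega)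
      omega)
  -- right window
  have hW2 := bcph_win hQG (S := S) (ζ := ζ) hK hN hG (A := b) (B := b + QQ N)
    (x0 := b + QQ N - j) rfl (by omega) (by omega) (by omega) hb3 hb5
    (fun x hx1 hx2 => by rw [hmS]; omega)
    (by
      intro c hc1 hc2
      have e1 := hS.rp (c - 1) (c - 1) (by omega) le_rfl (by
        have : ((c - 1 : ℕ) : ℝ) ≤ b + QQ N := by exact_mod_cast (by omega : c - 1 ≤ b + QQ N)
        linarith)
      have e2 := hvpe (c - 1) (c - 1)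
      have e3 : RR r l (c - 1) (c - 1) = 1 := by simp [RR]
      have e5 : c - 1 + 1 = c := by omega
      rw [e5] at e2
      have e4 := mul_le_mul_of_nonneg_right e1 (hG.pos c).1.le
      rw [e2, e3] at e4
      exact e4)
    (by
      intro z x hz hzx hx
      have e1 := hS.rp z x hz hzx (by
        have : (x : ℝ) ≤ b + QQ N := by exact_mod_cast (by omega : x ≤ b + QQ N)
        linarith)
      have e4 := mul_le_mul_of_nonneg_right e1 (hG.pos (x + 1)).1.le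
      rw [hvpe] at e4
      have e5 := (hG.adm (x + 1) (by omega) (by omega)).2.1
      refine e4.trans ?_
      calc Real.log N ^ 960 * r (x + 1) ≤ Real.log N ^ 960 * 1 :=
            mul_le_mul_of_nonneg_left e5 hD0.le
        _ = Real.log N ^ 960 := mul_one _)
    (by
      have := ht_cnt ζ (A := b) (B := b + QQ N) (by omega) (by omega)
      omega)
  set E1 : Set (Cfg N) := (sorted (b - QQ N) (b - QQ N + j - w) (b - QQ N + j + w) b)ᶜ with hE1
  set E2 : Set (Cfg N) := (sorted b (b + QQ N - j - w) (b + QQ N - j + w) (b + QQ N))ᶜ with hE2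
  have hmain : ev r l (fun _ => S) (mrN N) f ζ ≤
      ev r l (fun _ => S) (mrN N) (fun ξ => (M + ind E1 ξ) + ind E2 ξ) ζ := by
    refine bcph_inv hG.adm (fun _ => S) (mrN N) (fun ξ => ξ ∈ bcC' N (QQ N) b c0 j) ?_ ?_ ?_
      ⟨h1, h2, h3⟩
    · rintro i x ξ ⟨g1, g2, g3⟩
      exact ⟨by rw [bcph_ht_RmS hb5]; exact g1, by rw [bcph_ht_RmS hb3]; exact g2,
        by rw [bcph_ht_RmS hb4]; exact g3⟩
    · rintro i x ξ ⟨g1, g2, g3⟩
      exact ⟨by rw [bcph_ht_LmS hb5]; exact g1, by rw [bcph_ht_LmS hb3]; exact g2,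
        by rw [bcph_ht_LmS hb4]; exact g3⟩
    · intro ξ hξ
      by_cases g1 : ξ ∈ E1
      · rw [ind_of_mem g1]
        linarith [hf ξ, ind_nonneg E2 ξ]
      · by_cases g2 : ξ ∈ E2
        · rw [ind_of_mem g2]
          linarith [hf ξ, ind_nonneg E1 ξ]
        · rw [ind_of_not_mem g1, ind_of_not_mem g2, add_zero, add_zero]
          refine hfM ξ ⟨hξ, ?_, ?_⟩
          · intro x hx1 hx2
            have g3 : ξ ∈ sorted (b - QQ N) (b - QQ N + j - w) (b - QQ N + j + w) b :=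
              not_not.1 g1
            exact g3.2 x (by omega) hx2
          · intro x hx1 hx2
            have g3 : ξ ∈ sorted b (b + QQ N - j - w) (b + QQ N - j + w) (b + QQ N) :=
              not_not.1 g2
            exact g3.1 x hx1 (by omega)
  rw [ev_add_fun _ _ (fun ξ => M + ind E1 ξ) (ind E2), ev_add_fun _ _ (fun _ => M) (ind E1),
    ev_const] at hmain
  unfold pr at hW1 hW2
  linarith

theorem st_BCPH (hBC : ST_BCOPEN) (hQG : ST_QG) (_hLOC : ST_LOC) : ST_BCPH := by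
  intro C1 δ hδ0 hδ1
  obtain ⟨N1, hN1⟩ := bcph_num δ
  refine ⟨N1, ?_⟩
  intro N w b J g r l hN hG hrb hSur hbl hbr hJ hg hp3 hg2
  obtain ⟨hK, hNL, hKδ⟩ := hN1 N hN
  obtain ⟨hn1, hn2⟩ := bcph_n hK
  obtain ⟨hq1, hq2⟩ := bcph_QQ hK
  set Λ := Real.log N with hΛ
  have hΛ0 : 0 < Λ := by linarith
  have hΛ1 : 1 ≤ Λ := by linarith
  have hN1' : (1 : ℝ) ≤ N := (one_le_pow₀ hΛ1).trans hNL
  have hwl : (w : ℝ) ≤ Λ ^ 2 := hG.wlog
  have hw1 := hG.w1
  -- sizes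
  have hsq : Λ ^ 242 ≤ (N : ℝ) ^ (1 / 2 : ℝ) := by
    rw [← Real.sqrt_eq_rpow]
    refine Real.le_sqrt_of_sq_le ?_
    rw [← pow_mul]
    exact (pow_le_pow_right₀ hΛ1 (by norm_num)).trans hNL
  have hL241 : Λ ^ 242 = Λ ^ 241 * Λ := pow_succ _ _
  have hL1 : (1 : ℝ) ≤ Λ ^ 241 := one_le_pow₀ hΛ1
  have hbig : Λ ^ 241 + 3 ≤ Λ ^ 242 := by
    rw [hL241]
    have := mul_le_mul_of_nonneg_left (by linarith : (4 : ℝ) ≤ Λ) (by positivity : 0 ≤ Λ ^ 241)
    linarith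
  have hb1 : QQ N + 1 ≤ b := by
    have : (QQ N : ℝ) + 1 ≤ b := by linarith
    exact_mod_cast this
  have hb2 : b + QQ N + 1 ≤ N := by
    have : (b : ℝ) + QQ N + 1 ≤ N := by linarith
    exact_mod_cast this
  have hgw : g + 2 * w + 2 ≤ QQ N := by
    have h1 : (g : ℝ) + 2 * w + 2 ≤ QQ N := by
      have h2 : Λ ^ 240 + 2 * Λ ^ 2 + 4 ≤ Λ ^ 241 := by
        have e1 : Λ ^ 2 ≤ Λ ^ 240 := pow_le_pow_right₀ hΛ1 (by norm_num)
        have e2 : (1 : ℝ) ≤ Λ ^ 240 := one_le_pow₀ hΛ1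
        have e3 : Λ ^ 241 = Λ ^ 240 * Λ := pow_succ _ _
        rw [e3]
        have := mul_le_mul_of_nonneg_left (by linarith : (7 : ℝ) ≤ Λ)
          (by positivity : 0 ≤ Λ ^ 240)
        linarith
      linarith
    exact_mod_cast h1
  set q : ℕ := w + 2 with hq
  set So : Finset ℕ := Finset.Ioo (b - q) (b + q) with hSo
  set Sr : Finset ℕ := (Finset.Ioo (b - QQ N) (b + QQ N)).erase b with hSr
  have hT1 : So ⊆ Finset.Ioo (b - QQ N) (b + QQ N) := by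
    intro x hx
    rw [hSo, Finset.mem_Ioo] at hx
    rw [Finset.mem_Ioo]
    omega
  have hT2 : Sr ⊆ Finset.Ioo (b - QQ N) (b + QQ N) := Finset.erase_subset _ _
  refine ⟨bcSch (msN N) (mrN N) So Sr J, bcph_sub hT1 hT2 J, ?_⟩
  intro η hη1 hη2
  set c0 := ht η (b + QQ N) with hc0
  -- the initial state
  have hηb : ht η b = c0 + 0 := by
    have h1 : cnt η b (b + QQ N) = 0 := by
      unfold cnt
      refine Finset.sum_eq_zero fun i hi => ?_
      rw [Finset.mem_Ico] at hi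
      rw [hη2 i hi.1 hi.2]
      simp
    have := ht_cnt η (A := b) (B := b + QQ N) (by omega) (by omega)
    omega
  have hηa : ht η (b - QQ N) = c0 + QQ N := by
    have h1 : cnt η (b - QQ N) b = QQ N := by
      unfold cnt
      have h2 : ∀ i ∈ Finset.Ico (b - QQ N) b, (if occ η i = true then 1 else 0) = 1 := by
        intro i hi
        rw [Finset.mem_Ico] at hi
        rw [hη1 i (by omega) hi.2]
        simp
      rw [Finset.sum_congr rfl h2, Finset.sum_const, Nat.card_Ico, smul_eq_mul, mul_one]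
      omega
    have := ht_cnt η (A := b - QQ N) (B := b) (by omega) (by omega)
    omega
  have hηC : η ∈ bcC N (QQ N) q b c0 0 :=
    ⟨⟨rfl, hηb, hηa⟩, fun x hx1 hx2 => hη1 x (by omega) hx2, fun x hx1 hx2 =>
      hη2 x hx1 (by omega)⟩
  -- the open phase
  set p : ℝ := cpb N r l w b - (r b * msN N / (2 * N)) ^ 2 with hp
  have hL3 : 0 < Λ ^ 3 := by positivity
  have hJp : 0 < (J : ℝ) * p := lt_of_lt_of_le hL3 hp3
  have hJ0 : (0 : ℝ) ≤ J := Nat.cast_nonneg J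
  have hp0 : 0 ≤ p := by
    by_contra hc
    push Not at hc
    have := mul_nonpos_of_nonneg_of_nonpos hJ0 hc.le
    linarith
  have hrb1 := hG.adm b (by omega) (by omega)
  have hms : r b * msN N ≤ 2 * N := by
    have h1 : (msN N : ℝ) ≤ 2 * N * Λ ^ 4601 + 1 := (Nat.ceil_lt_add_one (by positivity)).le
    have h2 : r b * msN N ≤ r b * (2 * N * Λ ^ 4601 + 1) :=
      mul_le_mul_of_nonneg_left h1 hrb1.1.le
    have h3 : r b * N * (2 * Λ ^ 4601) ≤ Λ ^ 465 * (2 * Λ ^ 4601) :=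
      mul_le_mul_of_nonneg_right hrb (by positivity)
    have h4 : Λ ^ 465 * (2 * Λ ^ 4601) = 2 * Λ ^ 5066 := by
      have : Λ ^ 5066 = Λ ^ 465 * Λ ^ 4601 := by rw [← pow_add]
      rw [this]
      ring
    have h5 : Λ ^ 5067 = Λ ^ 5066 * Λ := pow_succ _ _
    have h6 : (1 : ℝ) ≤ Λ ^ 5066 := one_le_pow₀ hΛ1
    have h7 := mul_le_mul_of_nonneg_left (by linarith : (3 : ℝ) ≤ Λ)
      (by positivity : 0 ≤ Λ ^ 5066)
    have h8 : r b * (2 * N * Λ ^ 4601 + 1) = r b * N * (2 * Λ ^ 4601) + r b := by ring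
    linarith [hrb1.2.1]
  have hopen : ∀ j (ζ : Cfg N), ζ ∈ bcC N (QQ N) q b c0 j →
      p ≤ pr r l (fun _ => So) (msN N) {ξ | ht ζ b + 1 ≤ ht ξ b} ζ ∧
      pr r l (fun _ => So) (msN N) {ξ | ¬ hle 0 ζ ξ} ζ = 0 := by
    intro j ζ hζ
    exact hBC N r l b q (msN N) ζ hG.adm (by omega) (by omega) (by omega) hms hζ.2.1 hζ.2.2
  -- iterate
  set lam : ℝ := δ / 2 with hlam
  have hlam0 : 0 ≤ lam := by rw [hlam]; linarith
  have herr : 0 ≤ 4 * ((N : ℝ) ^ 10)⁻¹ := by positivity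
  have hit := bcph_iter hG.adm (g := g) (c0 := c0) (b := b) (ms := msN N) (mr := mrN N) (So := So)
    (Sr := Sr) (fun j => bcC N (QQ N) q b c0 j) (fun j => bcC' N (QQ N) b c0 j) hp0 hlam0 herr
    (fun j ζ hζ => hζ.1) (fun j ζ hζ => hζ.1.2.1)
    (fun j ζ hζ _ => bcph_up (by omega) (by omega) (by omega) (by omega) (by omega) hζ)
    hopen
    (fun j ζ hζ hj f M hM hf hfM =>
      bcph_rel hQG hK hNL hG hSur hb1 hb2 hgw j ζ hζ hj f M hM hf hfM) J
  have h1 := hit.2 0 (Nat.zero_le _) η hηC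
  -- the event
  have h2 : pr r l (bcSch (msN N) (mrN N) So Sr J) (J * (msN N + mrN N))
      {ξ | cnt ξ b (b + QQ N) < g} η ≤
      ev r l (bcSch (msN N) (mrN N) So Sr J) (J * (msN N + mrN N))
        (ind {ξ | ht ξ b < c0 + g}) η := by
    unfold pr
    have hcl : ∀ i, b + QQ N ∉ bcSch (msN N) (mrN N) So Sr J i := by
      intro i hi
      have := bcph_sub hT1 hT2 J i hi
      rw [Finset.mem_Ioo] at this
      omega
    refine bcph_inv hG.adm _ _ (fun ξ => ht ξ (b + QQ N) = c0) ?_ ?_ ?_ rfl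
    · intro i x ζ hζ
      rw [bcph_ht_RmS (hcl i)]
      exact hζ
    · intro i x ζ hζ
      rw [bcph_ht_LmS (hcl i)]
      exact hζ
    · intro ζ hζ
      by_cases g1 : ζ ∈ {ξ : Cfg N | cnt ξ b (b + QQ N) < g}
      · have g2 : ζ ∈ {ξ : Cfg N | ht ξ b < c0 + g} := by
          have g3 := ht_cnt ζ (A := b) (B := b + QQ N) (by omega) (by omega)
          rw [Set.mem_ofPred_eq] at g1 ⊢
          omega
        rw [ind_of_mem g1, ind_of_mem g2]
      · rw [ind_of_not_mem g1]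
        exact ind_nonneg _ ζ
  refine h2.trans (h1.trans ?_)
  -- Chernoff
  have hp1 : p ≤ 1 := (hopen 0 η hηC).1.trans (pr_le_one hG.adm _ _ _ _)
  have he0 : 0 < Real.exp (-lam) := Real.exp_pos _
  have he1 : Real.exp (-lam) ≤ 1 := Real.exp_le_one_iff.2 (by linarith)
  have he2 : lam - lam ^ 2 / 2 ≤ 1 - Real.exp (-lam) := by
    have h3 := Real.quadratic_le_exp_of_nonneg hlam0
    have h4 : Real.exp (-lam) = (Real.exp lam)⁻¹ := Real.exp_neg lam
    rw [h4]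
    have h5 : (Real.exp lam)⁻¹ ≤ (1 + lam + lam ^ 2 / 2)⁻¹ :=
      inv_anti₀ (by positivity) h3
    have h6 : (1 + lam + lam ^ 2 / 2)⁻¹ ≤ 1 - lam + lam ^ 2 / 2 := by
      rw [inv_le_iff_one_le_mul₀ (by positivity)]
      have e : (1 - lam + lam ^ 2 / 2) * (1 + lam + lam ^ 2 / 2) = 1 + lam ^ 4 / 4 := by ring
      rw [e]
      have : 0 ≤ lam ^ 4 := by positivity
      linarith
    linarith
  have hq0 : 0 ≤ 1 - p * (1 - Real.exp (-lam)) := by
    have := mul_le_one₀ hp1 (by linarith) (by linarith : 1 - Real.exp (-lam) ≤ 1)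
    linarith
  have h3 : (1 - p * (1 - Real.exp (-lam))) ^ J ≤
      Real.exp (-(J * p * (1 - Real.exp (-lam)))) := by
    have h4 : 1 - p * (1 - Real.exp (-lam)) ≤ Real.exp (-(p * (1 - Real.exp (-lam)))) := by
      have := Real.add_one_le_exp (-(p * (1 - Real.exp (-lam))))
      linarith
    have h5 := pow_le_pow_left₀ hq0 h4 J
    rw [← Real.exp_nat_mul] at h5
    refine h5.trans (le_of_eq ?_)
    congr 1
    ring
  have h4 : Real.exp (lam * ((g : ℝ) - (0 : ℕ))) * (1 - p * (1 - Real.exp (-lam))) ^ J ≤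
      ((N : ℝ) ^ 10)⁻¹ := by
    have h5 : Real.exp (lam * ((g : ℝ) - (0 : ℕ))) * (1 - p * (1 - Real.exp (-lam))) ^ J ≤
        Real.exp (lam * ((g : ℝ) - (0 : ℕ)) + -(J * p * (1 - Real.exp (-lam)))) := by
      rw [Real.exp_add]
      exact mul_le_mul_of_nonneg_left h3 (Real.exp_pos _).le
    refine h5.trans (bcph_exp hK ?_)
    rw [← hΛ]
    have h6 : lam * (g : ℝ) ≤ lam * ((1 - δ) * (J * p)) := mul_le_mul_of_nonneg_left hg hlam0
    have h7 : J * p * (lam - lam ^ 2 / 2) ≤ J * p * (1 - Real.exp (-lam)) :=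
      mul_le_mul_of_nonneg_left he2 hJp.le
    have h8 : 10 * Λ ≤ 3 / 8 * δ ^ 2 * (J * p) := by
      have h9 : 3 / 8 * δ ^ 2 * Λ ^ 3 ≤ 3 / 8 * δ ^ 2 * (J * p) :=
        mul_le_mul_of_nonneg_left hp3 (by positivity)
      have h10 : 80 ≤ Λ * (3 * δ ^ 2) := by
        rwa [div_le_iff₀ (by positivity)] at hKδ
      have h11 : 80 * Λ ≤ Λ * (3 * δ ^ 2) * Λ ^ 2 := by
        have : Λ ≤ Λ ^ 2 := by
          calc Λ = Λ ^ 1 := (pow_one Λ).symm
            _ ≤ Λ ^ 2 := pow_le_pow_right₀ hΛ1 (by norm_num)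
        calc 80 * Λ ≤ 80 * Λ ^ 2 := by linarith
          _ ≤ Λ * (3 * δ ^ 2) * Λ ^ 2 := mul_le_mul_of_nonneg_right h10 (by positivity)
      have h13 : Λ * (3 * δ ^ 2) * Λ ^ 2 = 8 * (3 / 8 * δ ^ 2 * Λ ^ 3) := by ring
      linarith
    have h12 : lam * ((1 - δ) * (J * p)) - J * p * (lam - lam ^ 2 / 2) =
        -(3 / 8 * δ ^ 2 * (J * p)) := by
      rw [hlam]
      ring
    push_cast
    linarith
  have h5 : (J : ℝ) * (4 * ((N : ℝ) ^ 10)⁻¹) ≤ 4 * (N : ℝ) ^ 2 * ((N : ℝ) ^ 10)⁻¹ := by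
    have h6 : (J : ℝ) ≤ (N : ℝ) ^ 2 := by exact_mod_cast hJ
    have h7 := mul_le_mul_of_nonneg_right h6 herr
    refine h7.trans (le_of_eq ?_)
    ring
  have h6 : (N : ℝ) ^ (-6 : ℝ) = ((N : ℝ) ^ 6)⁻¹ := by
    have h3 : (-6 : ℝ) = -((6 : ℕ) : ℝ) := by norm_num
    rw [h3, bcph_rpow]
  rw [h6]
  have h7 : ((N : ℝ) ^ 6)⁻¹ = (N : ℝ) ^ 4 * ((N : ℝ) ^ 10)⁻¹ := by
    have e : (N : ℝ) ^ 10 = (N : ℝ) ^ 4 * (N : ℝ) ^ 6 := by rw [← pow_add]
    rw [e, mul_inv, ← mul_assoc, mul_inv_cancel₀ (by positivity), one_mul]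
  rw [h7]
  have h8 : (20000 : ℝ) ≤ N := by
    have : Λ ≤ Λ ^ 5067 := by
      calc Λ = Λ ^ 1 := (pow_one Λ).symm
        _ ≤ Λ ^ 5067 := pow_le_pow_right₀ hΛ1 (by norm_num)
    linarith
  have h9 : 4 * (N : ℝ) ^ 2 + 1 ≤ (N : ℝ) ^ 4 := by
    have e : (N : ℝ) ^ 4 = (N : ℝ) ^ 2 * (N : ℝ) ^ 2 := by ring
    have e2 : (20000 : ℝ) ^ 2 ≤ (N : ℝ) ^ 2 := pow_le_pow_left₀ (by norm_num) h8 2
    rw [e]
    have e3 := mul_le_mul_of_nonneg_left e2 (by positivity : 0 ≤ (N : ℝ) ^ 2)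
    linarith
  have h10 : 0 < ((N : ℝ) ^ 10)⁻¹ := by positivity
  have h11 := mul_le_mul_of_nonneg_right h9 h10.le
  linarith

end Pool.Agent.Helper98.EX
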